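import Pool.Agent.MP_8be872_ag.H4.CellC

/-! Vanishing of the Lie algebra cohomology on the generic Schubert cell. -/

namespace Pool.Agent.MP_8be872_ag.H4

open Finset H38 H56 H64
open MvPolynomial hiding funext

lemma der_span {P : Type} [CommRing P] [Algebra ℂ P] (δ : Derivation ℂ P P) {S : Set P}
    {I : Ideal P} (h : ∀ s ∈ S, s ∈ I ∧ δ s ∈ I) {a : P} (ha : a ∈ Ideal.span S) :
    a ∈ I ∧ δ a ∈ I := by
  induction ha using Submodule.span_induction with
  | mem s hs => exact h s hs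
  | zero => simp
  | add x y _ _ hx hy => exact ⟨I.add_mem hx.1 hy.1, by rw [map_add]; exact I.add_mem hx.2 hy.2⟩
  | smul c x _ hx =>
    rw [smul_eq_mul, Derivation.leibniz, smul_eq_mul, smul_eq_mul]
    exact ⟨I.mul_mem_left _ hx.1, I.add_mem (I.mul_mem_left _ hx.2) (I.mul_mem_right _ hx.1)⟩

lemma Nil.map {O P A : Type} [CommRing P] [Algebra ℂ P] [CommRing A] [Algebra ℂ A] {𝔞 : Finset O}
    {δ : O → Derivation ℂ P P} {δ' : O → Derivation ℂ A A} (π : P →ₐ[ℂ] A)
    (h : ∀ r a, π (δ r a) = δ' r (π a)) {a : P} (ha : Nil 𝔞 δ a) : Nil 𝔞 δ' (π a) := by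
  induction ha with
  | step a _ ih => exact Nil.step _ fun r hr => h r a ▸ ih r hr
  | zero => rw [map_zero]; exact Nil.zero

lemma mem_of_neg {σ : Type} (wt : σ → G) (η : G →+ ℤ) (I : Ideal (MvPolynomial σ ℂ))
    (h : ∀ v, η (wt v) < 0 → X v ∈ I) {γ : G} (hγ : η γ < 0) {m : MvPolynomial σ ℂ}
    (hm : IsWeightedHomogeneous wt m γ) : m ∈ I := by
  classical
  rw [m.as_sum]
  refine I.sum_mem fun d hd => ?_
  have h1 := hm (mem_support_iff.1 hd)
  obtain ⟨v, hv, hv'⟩ : ∃ v ∈ d.support, η (wt v) < 0 := by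
    by_contra hc
    push Not at hc
    refine absurd hγ (not_lt.2 ?_)
    rw [← h1, Finsupp.weight_apply, Finsupp.sum, map_sum]
    exact Finset.sum_nonneg fun v hv => by
      rw [map_nsmul]; exact nsmul_nonneg (hc v hv) _
  rw [monomial_eq, Finsupp.prod, ← Finset.mul_prod_erase _ _ hv]
  exact I.mul_mem_left _ (I.mul_mem_right _
    (I.pow_mem_of_mem (h v hv') _ (Nat.pos_of_ne_zero (Finsupp.mem_support_iff.1 hv))))

section

variable {A V W : Type} [Fintype A] [Fintype V] [Fintype W] [DecidableEq A] [DecidableEq V]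
  [DecidableEq W]

lemma act_mat (r : V × V) (ε : A) (p q : V ⊕ W) : act r (mat ε p q) =
    (if q = Sum.inl r.2 then mat ε p (Sum.inl r.1) else 0) -
      if p = Sum.inl r.1 then mat ε (Sum.inl r.2) q else 0 := mkDerivation_X _ _ _

lemma act_none (r : V × V) : act r (X none : Pol A V W) = 0 := mkDerivation_X _ _ _

lemma emb_mat (ε : A) (p q : V ⊕ W) : emb (mat0 ε p q) = mat ε p q := rename_X _ _

lemma nil_all {R : V × V → Prop} (P : Set V) (𝔞 : Finset (Subtype R))
    (h : ∀ r ∈ 𝔞, r.1.1 ∉ P ∧ r.1.2 ∈ P) (a : Pol A V W) :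
    Nil 𝔞 (fun r : Subtype R => act r.1) a := by
  have ite : ∀ (c : Prop) [Decidable c] {b : Pol A V W}, Nil 𝔞 (fun r : Subtype R => act r.1) b →
      Nil 𝔞 (fun r : Subtype R => act r.1) (if c then b else 0) := fun c _ b hb => by
    split_ifs
    exacts [hb, Nil.zero]
  have s0 : ∀ (ε : A) (p q : V ⊕ W), (∀ a, p = .inl a → a ∈ P) → (∀ a, q = .inl a → a ∉ P) →
      Nil 𝔞 (fun r : Subtype R => act r.1) (mat ε p q) := fun ε p q hp hq =>
    Nil.of_killed fun r hr => by
      rw [act_mat, if_neg fun e => hq _ e (h r hr).2, if_neg fun e => (h r hr).1 (hp _ e), sub_zero]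
  have s1 : ∀ (ε : A) (p q : V ⊕ W), (∀ a, q = .inl a → a ∉ P) →
      Nil 𝔞 (fun r : Subtype R => act r.1) (mat ε p q) := fun ε p q hq =>
    Nil.step _ fun r hr => by
      rw [act_mat, if_neg fun e => hq _ e (h r hr).2, zero_sub]
      exact (ite _ (s0 _ _ _ (fun a e => Sum.inl.inj e ▸ (h r hr).2) hq)).neg
  have s2 : ∀ (ε : A) (p q : V ⊕ W), (∀ a, p = .inl a → a ∈ P) →
      Nil 𝔞 (fun r : Subtype R => act r.1) (mat ε p q) := fun ε p q hp =>
    Nil.step _ fun r hr => by
      rw [act_mat, if_neg (c := p = _) fun e => (h r hr).1 (hp _ e), sub_zero]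
      exact ite _ (s0 _ _ _ hp fun a e => Sum.inl.inj e ▸ (h r hr).1)
  induction a using MvPolynomial.induction_on with
  | C a => exact Nil.of_killed fun r _ => derivation_C _ _
  | add p q hp hq => exact hp.add hq
  | mul_X p v hp =>
    refine hp.mul ?_
    rcases v with _ | ⟨ε, p, q⟩
    · exact Nil.of_killed fun r _ => act_none _
    · refine Nil.step _ fun r hr => ?_
      rw [show (X (some (ε, p, q)) : Pol A V W) = mat ε p q from rfl, act_mat, sub_eq_add_neg]
      exact (ite _ (s1 _ _ _ fun a e => Sum.inl.inj e ▸ (h r hr).1)).add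
        (ite _ (s2 _ _ _ fun a e => Sum.inl.inj e ▸ (h r hr).2)).neg

end

theorem cell : CEStmt → RepStmt → CellStmt := by
  classical
  intro hCE hRep A V W ι _ _ _ _ _ _ _ R _ vert key x t ξ σ hkey hR hw J hJ hsub hmin
  obtain ⟨n, c, ρ, hc, hg, hlow, hmax⟩ := exists_extremal vert key J hJ
  obtain ⟨-, hrep, hemb, hwt, -⟩ := hRep A V W R x t
  have hroots : IsRoots R := ⟨fun a h => absurd ((hR a a).1 h).2 (lt_irrefl _), fun a b c h h' =>
    (hR a c).2 ⟨((hR a b).1 h).1.trans ((hR b c).1 h').1,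
      ((hR b c).1 h').2.trans ((hR a b).1 h).2⟩⟩
  have hg0 : mn c ρ ≠ 0 := fun h => hg (h ▸ J.zero_mem)
  have hinj : Function.Injective ρ := fun i j e => by
    by_contra hne
    exact hg0 (mn_eq_zero c hne e)
  obtain ⟨a₀, ha₀⟩ : ∃ a₀, a₀ ∉ Set.range ρ := by
    by_contra hcon
    push Not at hcon
    let e := Equiv.ofBijective ρ ⟨hinj, hcon⟩
    refine hg (hmin _ ⟨fun b => c (e.symm b), fun b => hc _, ?_⟩)
    rw [← mn_reindex e.symm]
    exact congrArg (mn _) (funext fun a => e.apply_symm_apply a)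
  have hlow' : ∀ i b, key b < key (ρ i) → mn c (Function.update ρ i b) ∈ J := fun i b h => by
    refine hlow _ ?_
    have e : ∀ k, key (Function.update ρ i b k) = Function.update (fun k => key (ρ k)) i (key b) k :=
      fun k => Function.apply_update (fun _ => key) ρ i b k
    simp only [e]
    rw [Finset.sum_update_of_mem (Finset.mem_univ i), ← Finset.add_sum_erase _ _ (mem_univ i),
      Finset.sdiff_singleton_eq_erase]
    omega
  choose ν hν using fun j => col_supp (hc j)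
  have hvert : ∀ i a, vert a ≠ vert (ρ i) → mn c (Function.update ρ i a) = 0 := fun i a h => by
    by_contra hne
    have h1 := (count_eq hν hne (vert a)).trans (count_eq hν hg0 (vert a)).symm
    rw [← Finset.add_sum_erase _ _ (mem_univ i), ← Finset.add_sum_erase _ _ (mem_univ i),
      Function.update_self, if_pos rfl, if_neg h.symm, Finset.sum_congr rfl fun k hk => by
        rw [Function.update_of_ne (Finset.ne_of_mem_erase hk)]] at h1
    omega
  have hactg : ∀ r, R r → act0 r (mn c ρ) ∈ J := by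
    rintro ⟨a, b⟩ hr
    rw [act_mn hc ((hR a b).1 hr).1]
    refine J.neg_mem (J.sum_mem fun i _ => ?_)
    split_ifs with h
    · exact hlow' i b (h ▸ ((hR a b).1 hr).2)
    · exact J.zero_mem
  choose ω hω hω' using fun j => wt_col x t (⨅ a, (ξ a).ker)
    (fun b => AddSubgroup.mem_iInf.2 fun a => hw.xu a b)
    (fun ε => AddSubgroup.mem_iInf.2 fun a => hw.xt a ε) (hc j)
  have hω0 : ∀ a j, ξ a (ω j) = 0 := fun a j => AddSubgroup.mem_iInf.1 (hω j) a
  set φ : G := ∑ j, ω j - ∑ i, x (.inl (ρ i)) with hφ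
  have hξφ : ∀ a, ξ a φ = -∑ i, if a = ρ i then 1 else 0 := fun a => by
    simp [hφ, hω0, hw.xx]
  let η : G →+ ℤ := ∑ a ∈ univ.filter (· ∉ Set.range ρ), ξ a
  have hη : ∀ γ, η γ = ∑ a ∈ univ.filter (· ∉ Set.range ρ), ξ a γ := fun γ =>
    AddMonoidHom.finsetSum_apply _ _ _
  have hηx : ∀ a, η (x (.inl a)) = if a ∈ Set.range ρ then 0 else 1 := fun a => by
    simp only [hη, hw.xx, Finset.sum_ite_eq', Finset.mem_filter, mem_univ, true_and, ite_not]
  have hηu : ∀ b, η (x (.inr b)) = 0 := fun b => by simp [hη, hw.xu]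
  have hηt : ∀ ε, η (t ε) = 0 := fun ε => by simp [hη, hw.xt]
  have hηφ : η φ = 0 := by
    rw [hφ, map_sub, map_sum, map_sum, Finset.sum_eq_zero fun j _ => by simp [hη, hω0],
      Finset.sum_eq_zero fun i _ => by rw [hηx, if_pos ⟨i, rfl⟩], sub_zero]
  refine ⟨φ, mn c ρ, 1 + ∑ S : Finset (Subtype R),
    |η (∑ r ∈ S, (x (.inl r.1.2) - x (.inl r.1.1)))|, wt_mn x t c ω hω' ρ, hg, hactg,
    fun a => ?_, fun γ hγ => ?_⟩
  · rw [hξφ, neg_nonpos]
    exact Finset.sum_nonneg fun i _ => by split_ifs <;> simp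
  set I : Ideal (Pol A V W) := J.map emb ⊔ Ideal.span {emb (mn c ρ) * X none - 1} with hI
  have hJI : ∀ a ∈ J, emb a ∈ I := fun a h => Ideal.mem_sup_left (Ideal.mem_map_of_mem _ h)
  have hstab : ∀ r, R r → ∀ a ∈ I, act r a ∈ I := fun r hr a ha => by
    rw [hI, Ideal.map, ← Ideal.span_union] at ha
    refine (der_span (act r) ?_ ha).2
    rintro _ (⟨b, hb, rfl⟩ | rfl)
    · exact ⟨hJI b hb, by rw [hemb]; exact hJI _ (hsub.stab r hr b hb)⟩
    · refine ⟨Ideal.mem_sup_right (Ideal.subset_span rfl), ?_⟩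
      rw [map_sub, Derivation.map_one_eq_zero, sub_zero, Derivation.leibniz, act_none, smul_zero,
        zero_add, hemb]
      exact I.mul_mem_left _ (hJI _ (hactg r hr))
  let π := Ideal.Quotient.mkₐ ℂ I
  have hπ : ∀ a, π a = 0 ↔ a ∈ I := fun a => Ideal.Quotient.eq_zero_iff_mem
  have hsurj : Function.Surjective π := Ideal.Quotient.mk_surjective
  let δ : Subtype R → Derivation ℂ (Pol A V W ⧸ I) (Pol A V W ⧸ I) := fun r =>
    Derivation.liftOfSurjective (f := π) hsurj (d := act r.1)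
      fun a h => (hπ _).2 (hstab r.1 r.2 a ((hπ a).1 h))
  have hδπ : ∀ r a, π (act r.1 a) = δ r (π a) := fun r a =>
    (Derivation.liftOfSurjective_apply _ _ a).symm
  let ψ : Pol0 A V W →+* Pol A V W ⧸ I := (π.comp emb).toRingHom
  have hψ : ∀ a, ψ a = π (emb a) := fun _ => rfl
  have hψJ : ∀ a ∈ J, ψ a = 0 := fun a h => (hπ _).2 (hJI a h)
  have hT : ψ (mn c ρ) * π (X none) = 1 := by
    have := (hπ _).2 (Ideal.mem_sup_right (Ideal.subset_span rfl) :
      emb (mn c ρ) * X none - 1 ∈ I)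
    rwa [map_sub, map_mul, map_one, sub_eq_zero] at this
  let 𝔞 : Finset (Subtype R) := univ.filter fun r => r.1.1 ∉ Set.range ρ ∧ r.1.2 ∈ Set.range ρ
  have h𝔞 : ∀ r, r ∈ 𝔞 ↔ r.1.1 ∉ Set.range ρ ∧ r.1.2 ∈ Set.range ρ := fun r => by simp only [𝔞,
    Finset.mem_filter, mem_univ, true_and]
  let τ : Subtype R → Pol A V W := fun r =>
    ∑ i, if ρ i = r.1.2 then X none * emb (mn c (Function.update ρ i r.1.1)) else 0
  have hτ : ∀ (r : Subtype R) i, ρ i = r.1.2 →
      τ r = X none * emb (mn c (Function.update ρ i r.1.1)) := fun r i h => by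
    simp only [τ, ← h, hinj.eq_iff, Finset.sum_ite_eq', mem_univ, if_true]
  let It := Ideal.span ((fun r => π (τ r)) '' (𝔞 : Set (Subtype R)))
  have hcol : ∀ c₀, IsCol vert c₀ → ∀ a ∉ Set.range ρ, ψ (c₀ a) ∈ It := fun c₀ h₀ a ha => by
    have h1 := hψJ _ (hmax c₀ a h₀)
    rw [map_mn, show (fun j b => ψ (Sum.elim c (fun _ : Unit => c₀) j b)) =
      Sum.elim (fun j b => ψ (c j b)) fun _ : Unit => fun b => ψ (c₀ b) from
        funext fun j => by cases j <;> rfl] at h1
    rw [cramer_col _ ρ (π (X none)) (by rw [← map_mn]; exact hT) _ a h1]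
    refine It.sum_mem fun i _ => It.mul_mem_right _ ?_
    rw [← map_mn]
    by_cases h : R (a, ρ i)
    · refine Ideal.subset_span ⟨⟨_, h⟩, (h𝔞 _).2 ⟨ha, i, rfl⟩, ?_⟩
      beta_reduce
      rw [hτ ⟨_, h⟩ i rfl, map_mul, hψ]
    · by_cases h2 : vert a = vert (ρ i)
      · have h3 : key a < key (ρ i) := lt_of_le_of_ne (not_lt.1 fun h' => h ((hR _ _).2 ⟨h2, h'⟩))
          fun e => ha ⟨i, (hkey e).symm⟩
        rw [hψJ _ (hlow' i a h3), mul_zero]; exact It.zero_mem
      · rw [hvert i a h2, map_zero, mul_zero]; exact It.zero_mem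
  have hvar : ∀ v, η (polWt x t φ v) < 0 → X v ∈ It.comap π := by
    rintro (_ | ⟨ε, p, q⟩) h
    · simp [polWt, hηφ] at h
    simp only [polWt, map_neg, map_add, map_sub, hηt, add_zero, neg_sub, sub_neg] at h
    obtain ⟨a, rfl, ha⟩ : ∃ a, p = .inl a ∧ a ∉ Set.range ρ := by
      have h1 : 0 ≤ η (x q) := by
        rcases q with q | q
        · rw [hηx]; split_ifs <;> simp
        · rw [hηu]
      rcases p with p | p
      · refine ⟨p, rfl, fun hp => ?_⟩
        rw [hηx p, if_pos hp] at h; omega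
      · rw [hηu p] at h; omega
    change π (mat ε (.inl a) q) ∈ It
    rcases q with q | b
    · obtain ⟨i, rfl⟩ : q ∈ Set.range ρ := by
        by_contra hq
        rw [hηx, hηx, if_neg hq, if_neg ha] at h; omega
      refine mem_of_vecMul (fun j b => ψ (c j b)) ρ (π (X none)) (by rw [← map_mn]; exact hT) It
        (fun i => π (mat ε (.inl a) (.inl (ρ i)))) (fun j => ?_) i
      have h1 := hcol _ (IsCol.step ε (vert a) _ (hc j)) a ha
      simp only [if_true, map_sum, map_mul] at h1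
      rw [← Finset.sum_filter_add_sum_filter_not univ (· ∈ Set.range ρ),
        Ideal.add_mem_iff_left _ (It.sum_mem fun b hb =>
          It.mul_mem_left _ (hcol _ (hc j) b (Finset.mem_filter.1 hb).2)),
        show univ.filter (· ∈ Set.range ρ) = univ.image ρ by ext; simp,
        Finset.sum_image fun _ _ _ _ e => hinj e] at h1
      simpa only [hψ, emb_mat] using h1
    · simpa only [if_true, hψ, emb_mat] using hcol _ (IsCol.base ε b (vert a)) a ha
  obtain ⟨hD, hD', -⟩ := hCE V R (fun a => x (.inl a)) hroots _ _ _ (hrep φ)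
  refine acyc_of hD (hD' ⊤ ⟨by simp [(hrep φ).top], fun _ _ _ _ => trivial⟩) π _
    (fun a => (hπ a).symm) δ hδπ 𝔞 τ
    (fun r => if r ∈ 𝔞 then 0 else key r.1.2 + (univ.sup key - key r.1.1) + 1)
    (fun r hr γ m hm => ?_) (fun r hr s hs => ?_) (fun r hr s hs a => ?_) (fun a => ?_)
    (fun r hr s hs => ?_) (fun s s' s'' h1 h2 => ?_) γ fun S m hm => ?_
  · obtain ⟨i, hi⟩ := ((h𝔞 r).1 hr).2
    rw [hτ r i hi]
    have h1 := (hwt φ _ _).2 (wt_mn x t c ω hω' (Function.update ρ i r.1.1))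
    have h2 := ((isWeightedHomogeneous_X ℂ (polWt x t φ) none).mul h1).mul hm
    have e : ∀ k, x (.inl (Function.update ρ i r.1.1 k)) =
        Function.update (fun k => x (.inl (ρ k))) i (x (.inl r.1.1)) k :=
      fun k => Function.apply_update (fun _ a => x (.inl a)) ρ i r.1.1 k
    simp only [e] at h2
    rw [Finset.sum_update_of_mem (Finset.mem_univ i), Finset.sdiff_singleton_eq_erase] at h2
    refine (congrArg (IsWeightedHomogeneous _ _) ?_).mp h2
    rw [polWt, hφ, ← Finset.add_sum_erase _ (fun k => x (.inl (ρ k))) (mem_univ i), hi]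
    abel
  · obtain ⟨⟨a, b⟩, hab⟩ := r
    obtain ⟨ha, i', rfl : ρ i' = b⟩ := (h𝔞 _).1 hr
    obtain ⟨ha', i, hi⟩ := (h𝔞 s).1 hs
    rw [← hδπ, hτ s i hi, Derivation.leibniz, act_none, smul_zero, add_zero, hemb,
      act_mn hc ((hR _ _).1 hab).1, Finset.sum_eq_single i (fun k _ hk => if_neg (by
        rw [Function.update_of_ne hk]; exact fun e => ha ⟨k, e⟩)) (by simp),
      Function.update_self, Function.update_idem, smul_eq_mul, map_mul, ← hψ]
    by_cases h : s.1.1 = a
    · rw [if_pos h]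
      by_cases h' : i = i'
      · subst h'
        rw [Function.update_eq_self, if_pos (Subtype.ext (Prod.ext h.symm hi)), map_neg, mul_neg,
          mul_comm (π _), hT]
      · rw [mn_eq_zero c h' (by rw [Function.update_self, Function.update_of_ne (Ne.symm h')]),
          if_neg fun e => h' (hinj (hi.trans (by rw [← e])))]
        simp
    · rw [if_neg h, if_neg fun e => h (by rw [← e])]
      simp
  · obtain ⟨a, rfl⟩ := hsurj a
    have h := LinearMap.congr_fun ((hrep φ).brk r.1 s.1 r.2 s.2) a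
    rw [if_neg fun e : r.1.2 = s.1.1 => ((h𝔞 s).1 hs).1 (e ▸ ((h𝔞 r).1 hr).2),
      if_neg fun e : s.1.2 = r.1.1 => ((h𝔞 r).1 hr).1 (e ▸ ((h𝔞 s).1 hs).2), sub_zero, LinearMap.sub_apply,
      LinearMap.zero_apply, sub_eq_zero] at h
    simp only [← hδπ]
    exact congrArg π h
  · obtain ⟨a, rfl⟩ := hsurj a
    exact (nil_all _ 𝔞 (fun r hr => (h𝔞 r).1 hr) a).map π hδπ
  · simp only [if_pos hr, if_neg hs]
    omega
  · have k1 : key s.1.2 < key s.1.1 := ((hR _ _).1 (s.2 : R (s.1.1, s.1.2))).2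
    have k2 : key s'.1.2 < key s'.1.1 := ((hR _ _).1 (s'.2 : R (s'.1.1, s'.1.2))).2
    have k3 : key s.1.1 ≤ univ.sup key := Finset.le_sup (mem_univ _)
    rw [← h1] at k2
    refine ⟨fun h => ?_, fun h => ?_⟩
    · rw [if_neg (c := s' ∈ 𝔞) fun h' => ((h𝔞 _).1 h').1 (h1 ▸ ((h𝔞 _).1 h).2), h2, ← h1]
      dsimp only
      split_ifs <;> omega
    · rw [if_neg (c := s ∈ 𝔞) fun h' => ((h𝔞 _).1 h).1 (h1 ▸ ((h𝔞 _).1 h').2), h2]
      dsimp only
      split_ifs <;> omega
  · refine mem_of_neg _ η _ hvar ?_ hm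
    have h1 := Finset.single_le_sum (f := fun S : Finset (Subtype R) =>
      |η (∑ r ∈ S, (x (.inl r.1.2) - x (.inl r.1.1)))|) (fun _ _ => abs_nonneg _) (mem_univ S)
    have h0 := (abs_nonneg _).trans h1
    have h2 : η γ ≤ ξ a₀ γ := by
      rw [hη, ← Finset.add_sum_erase _ _ (Finset.mem_filter.2 ⟨mem_univ a₀, ha₀⟩)]
      exact add_le_of_nonpos_right (Finset.sum_nonpos fun a _ => (hγ a).trans (by omega))
    have h3 := hγ a₀
    have h4 := neg_abs_le (η (∑ r ∈ S, (x (.inl r.1.2) - x (.inl r.1.1))))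
    rw [map_sub]
    omega

end Pool.Agent.MP_8be872_ag.H4
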