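import Pool.Agent.MP_8be872_ag.H56.GSpec

/-! Anticommutation relations, the Euler operator of a family of commuting derivations. -/

namespace Pool.Agent.MP_8be872_ag.H4

open Finset Polynomial H56

/-! ### Polynomials in intertwined operators -/

lemma aeval_intertwine {M N : Type} [AddCommGroup M] [Module ℂ M] [AddCommGroup N] [Module ℂ N]
    (f : Module.End ℂ M) (g : Module.End ℂ N) (T : M →ₗ[ℂ] N) (U : Submodule ℂ M)
    (hU : ∀ m ∈ U, f m ∈ U) (h : ∀ m ∈ U, T (f m) = g (T m)) (q : ℂ[X]) {m : M} (hm : m ∈ U) :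
    aeval f q m ∈ U ∧ T (aeval f q m) = aeval g q (T m) := by
  have hp : ∀ n : ℕ, (f ^ n) m ∈ U ∧ T ((f ^ n) m) = (g ^ n) (T m) := fun n => by
    induction n with
    | zero => simpa using hm
    | succ n ih =>
      rw [pow_succ', pow_succ', Module.End.mul_apply, Module.End.mul_apply]
      exact ⟨hU _ ih.1, by rw [h _ ih.1, ih.2]⟩
  induction q using Polynomial.induction_on' with
  | add p q hp hq =>
    rw [map_add, map_add, LinearMap.add_apply, LinearMap.add_apply, map_add, hp.2, hq.2]
    exact ⟨U.add_mem hp.1 hq.1, rfl⟩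
  | monomial n a =>
    simp only [aeval_monomial, Module.End.mul_apply, Module.algebraMap_end_apply, map_smul]
    exact ⟨U.smul_mem a (hp n).1, by rw [(hp n).2]⟩

lemma aeval_shift {M : Type} [AddCommGroup M] [Module ℂ M] (f : Module.End ℂ M) (c : ℂ)
    (q : ℂ[X]) : aeval (f + algebraMap ℂ _ c) (q.comp (X - C c)) = aeval f q := by
  rw [aeval_comp]; simp

lemma aeval_prod_eq_zero {M α : Type} [AddCommGroup M] [Module ℂ M] (f : Module.End ℂ M)
    (s : Finset α) (q : α → ℂ[X]) {i : α} (hi : i ∈ s) {m : M} (h : aeval f (q i) m = 0) :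
    aeval f (∏ j ∈ s, q j) m = 0 := by
  classical
  rw [← Finset.prod_erase_mul _ _ hi, map_mul, Module.End.mul_apply, h, map_zero]

/-! ### The Euler operator -/

section Euler

variable {O A : Type} [DecidableEq O] [CommRing A] [Algebra ℂ A] (𝔞 : Finset O)
  (δ : O → Derivation ℂ A A) (t : O → A)

/-- Elements on which the derivations act nilpotently. -/
inductive Nil : A → Prop
  | step (a : A) : (∀ r ∈ 𝔞, Nil (δ r a)) → Nil a
  | zero : Nil 0

variable {𝔞 δ}

lemma Nil.der {a : A} (h : Nil 𝔞 δ a) {r : O} (hr : r ∈ 𝔞) : Nil 𝔞 δ (δ r a) := by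
  cases h with
  | step _ h => exact h r hr
  | zero => rw [map_zero]; exact Nil.zero

lemma Nil.add {a b : A} (ha : Nil 𝔞 δ a) (hb : Nil 𝔞 δ b) : Nil 𝔞 δ (a + b) := by
  induction ha generalizing b with
  | step a _ ih => exact Nil.step _ fun r hr => by rw [map_add]; exact ih r hr (hb.der hr)
  | zero => simpa using hb

lemma Nil.neg {a : A} (ha : Nil 𝔞 δ a) : Nil 𝔞 δ (-a) := by
  induction ha with
  | step a _ ih => exact Nil.step _ fun r hr => by rw [map_neg]; exact ih r hr
  | zero => simpa using Nil.zero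

lemma Nil.mul {a b : A} (ha : Nil 𝔞 δ a) (hb : Nil 𝔞 δ b) : Nil 𝔞 δ (a * b) := by
  induction ha generalizing b with
  | zero => simpa using Nil.zero
  | step a _ iha =>
    induction hb with
    | zero => simpa using Nil.zero
    | step b hb ihb =>
      refine Nil.step _ fun r hr => ?_
      rw [Derivation.leibniz, smul_eq_mul, smul_eq_mul, mul_comm b]
      exact (ihb r hr).add (iha r hr (Nil.step b hb))

lemma Nil.of_killed {a : A} (h : ∀ r ∈ 𝔞, δ r a = 0) : Nil 𝔞 δ a :=
  Nil.step _ fun r hr => by rw [h r hr]; exact Nil.zero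

variable (𝔞 δ)

/-- The Euler operator. -/
noncomputable def euler : Module.End ℂ A :=
  -∑ r ∈ 𝔞, LinearMap.mulLeft ℂ (t r) ∘ₗ (δ r).toLinearMap

lemma euler_apply (a : A) : euler 𝔞 δ t a = -∑ r ∈ 𝔞, t r * δ r a := by
  simp [euler, LinearMap.sum_apply]

variable {𝔞 δ t}

lemma der_euler (hδ : ∀ r ∈ 𝔞, ∀ s ∈ 𝔞, δ r (t s) = if r = s then -1 else 0)
    (hc : ∀ r ∈ 𝔞, ∀ s ∈ 𝔞, ∀ a, δ r (δ s a) = δ s (δ r a)) {r : O} (hr : r ∈ 𝔞) (a : A) :
    δ r (euler 𝔞 δ t a) = (euler 𝔞 δ t + algebraMap ℂ _ 1) (δ r a) := by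
  rw [map_one, LinearMap.add_apply, euler_apply, euler_apply, map_neg, map_sum,
    Finset.sum_congr rfl (g := fun s => t s * δ s (δ r a) + if r = s then -δ s a else 0)
      fun s hs => by
        rw [Derivation.leibniz, hc r hr s hs, hδ r hr s hs]
        split_ifs <;> simp]
  rw [Finset.sum_add_distrib, Finset.sum_ite_eq, if_pos hr]
  simp [add_comm]

lemma euler_mul (hδ : ∀ r ∈ 𝔞, ∀ s ∈ 𝔞, δ r (t s) = if r = s then -1 else 0) {s : O}
    (hs : s ∈ 𝔞) (a : A) :
    t s * (euler 𝔞 δ t + algebraMap ℂ (Module.End ℂ A) 1) a = euler 𝔞 δ t (t s * a) := by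
  rw [map_one, LinearMap.add_apply, euler_apply, euler_apply,
    Finset.sum_congr rfl (f := fun r => t r * δ r (t s * a))
      (g := fun r => t s * (t r * δ r a) + if r = s then -(t r * a) else 0) fun r hr => by
        rw [Derivation.leibniz, hδ r hr s hs]
        split_ifs <;> simp <;> ring]
  rw [Finset.sum_add_distrib, Finset.sum_ite_eq', if_pos hs, ← Finset.mul_sum]
  simp only [Module.End.one_apply]
  ring

lemma nil_good (hδ : ∀ r ∈ 𝔞, ∀ s ∈ 𝔞, δ r (t s) = if r = s then -1 else 0)
    (hc : ∀ r ∈ 𝔞, ∀ s ∈ 𝔞, ∀ a, δ r (δ s a) = δ s (δ r a)) {a : A} (ha : Nil 𝔞 δ a) :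
    ∃ q : ℂ[X], (∀ n : ℕ, q.eval (-((n : ℂ) + 1)) ≠ 0) ∧ aeval (euler 𝔞 δ t) q a = 0 := by
  induction ha with
  | zero => exact ⟨1, by simp, by simp⟩
  | step a _ ih =>
    choose! q hq hq' using ih
    refine ⟨X * (∏ r ∈ 𝔞, q r).comp (X - C 1), fun n => ?_, ?_⟩
    · rw [eval_mul, eval_X, eval_comp, eval_prod]
      refine mul_ne_zero (neg_ne_zero.2 (Nat.cast_add_one_ne_zero n))
        (Finset.prod_ne_zero_iff.2 fun r hr => ?_)
      have := hq r hr (n + 1)
      rwa [show -((((n + 1 : ℕ) : ℂ)) + 1) = eval (-((n : ℂ) + 1)) (X - C 1) by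
        simp; ring] at this
    · rw [map_mul, aeval_X, Module.End.mul_apply, euler_apply, neg_eq_zero]
      refine Finset.sum_eq_zero fun r hr => ?_
      have := (aeval_intertwine (euler 𝔞 δ t) _ (δ r).toLinearMap ⊤ (fun _ _ => trivial)
        (fun m _ => der_euler hδ hc hr m) ((∏ r ∈ 𝔞, q r).comp (X - C 1)) (m := a) trivial).2
      rw [aeval_shift] at this
      exact mul_eq_zero_of_right _ (this.trans (aeval_prod_eq_zero _ _ _ hr (hq' r hr)))

lemma span_good (hδ : ∀ r ∈ 𝔞, ∀ s ∈ 𝔞, δ r (t s) = if r = s then -1 else 0)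
    (hc : ∀ r ∈ 𝔞, ∀ s ∈ 𝔞, ∀ a, δ r (δ s a) = δ s (δ r a)) (hn : ∀ a, Nil 𝔞 δ a) {a : A}
    (ha : a ∈ Ideal.span (t '' (𝔞 : Set O))) :
    ∃ q : ℂ[X], (∀ n : ℕ, q.eval (-(n : ℂ)) ≠ 0) ∧ aeval (euler 𝔞 δ t) q a = 0 := by
  have key : ∀ b, ∃ q : ℂ[X], (∀ n : ℕ, q.eval (-(n : ℂ)) ≠ 0) ∧
      aeval (euler 𝔞 δ t) q (a * b) = 0 := by
    induction ha using Submodule.span_induction with
    | mem _ h =>
      obtain ⟨s, hs, rfl⟩ := h
      intro b
      obtain ⟨q, hq, hq'⟩ := nil_good hδ hc (hn b)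
      refine ⟨q.comp (X - C 1), fun n => ?_, ?_⟩
      · have := hq n
        rwa [show -((n : ℂ) + 1) = eval (-(n : ℂ)) (X - C 1) by simp; ring, ← eval_comp] at this
      · have := (aeval_intertwine _ (euler 𝔞 δ t) (LinearMap.mulLeft ℂ (t s)) ⊤
          (fun _ _ => trivial) (fun m _ => euler_mul hδ hs m) (q.comp (X - C 1)) (m := b)
          trivial).2
        rw [aeval_shift, hq', map_zero] at this
        exact this.symm
    | zero => exact fun b => ⟨1, by simp, by simp⟩
    | add x y _ _ hx hy =>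
      intro b
      obtain ⟨q, hq, hq'⟩ := hx b
      obtain ⟨q₁, hq₁, hq₁'⟩ := hy b
      refine ⟨q * q₁, fun n => by rw [eval_mul]; exact mul_ne_zero (hq n) (hq₁ n), ?_⟩
      rw [add_mul, map_add]
      nth_rewrite 1 [mul_comm q]
      simp only [map_mul, Module.End.mul_apply, hq', hq₁', map_zero, add_zero]
    | smul c x _ hx =>
      intro b
      rw [smul_eq_mul, mul_comm c, mul_assoc]
      exact hx _
  simpa using key 1

end Euler

/-! ### Anticommutation relations -/

section Car

variable {O M : Type} [Fintype O] [DecidableEq O] [AddCommGroup M] [Module ℂ M]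

lemma wedge_apply (o : O) (φ : Finset O → M) (S : Finset O) :
    wedge o φ S = if o ∈ S then sgn o S • φ (S.erase o) else 0 := by
  unfold wedge
  rw [LinearMap.pi_apply]
  split_ifs <;> simp

lemma contr_apply (o : O) (φ : Finset O → M) (S : Finset O) :
    contr o φ S = if o ∈ S then 0 else sgn o S • φ (insert o S) := by
  unfold contr
  rw [LinearMap.pi_apply]
  split_ifs <;> simp

/-- The sign of the pair. -/
noncomputable def eps (o o' : O) : ℂ :=
  if Fintype.equivFin O o' < Fintype.equivFin O o then -1 else 1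

lemma eps_self (o : O) : eps o o = 1 := by simp [eps]

lemma eps_swap {o o' : O} (h : o ≠ o') : eps o o' = -eps o' o := by
  unfold eps
  have : Fintype.equivFin O o ≠ Fintype.equivFin O o' := fun e => h ((Fintype.equivFin O).injective e)
  rcases lt_or_gt_of_ne this with h1 | h1
  · rw [if_neg (not_lt.2 h1.le), if_pos h1]; simp
  · rw [if_pos h1, if_neg (not_lt.2 h1.le)]

lemma eps_sq (o o' : O) : eps o o' * eps o o' = 1 := by
  unfold eps; split_ifs <;> simp

lemma sgn_insert (o : O) {o' : O} {S : Finset O} (h : o' ∉ S) :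
    sgn o (insert o' S) = eps o o' * sgn o S := by
  unfold sgn eps
  rw [Finset.filter_insert]
  split_ifs with h1
  · rw [Finset.card_insert_of_notMem (by simp [h]), pow_succ']
  · rw [one_mul]

lemma sgn_erase (o : O) {o' : O} {S : Finset O} (h : o' ∈ S) :
    sgn o (S.erase o') = eps o o' * sgn o S := by
  have := sgn_insert o (Finset.notMem_erase o' S)
  rw [Finset.insert_erase h] at this
  rw [this, ← mul_assoc, eps_sq, one_mul]

lemma sgn_sq (o : O) (S : Finset O) : sgn o S * sgn o S = 1 := by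
  unfold sgn
  rw [← mul_pow]; simp

lemma wedge_contr_self (o : O) (φ : Finset O → M) (S : Finset O) :
    wedge o (contr o φ) S = if o ∈ S then φ S else 0 := by
  rw [wedge_apply]
  split_ifs with h
  · rw [contr_apply, if_neg (Finset.notMem_erase o S), sgn_erase o h, eps_self, one_mul, smul_smul,
      sgn_sq, one_smul, Finset.insert_erase h]
  · rfl

lemma contr_wedge (o o' : O) :
    (contr o * wedge o' : Module.End ℂ (Finset O → M)) =
      (if o = o' then 1 else 0) - wedge o' * contr o := by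
  refine LinearMap.ext fun φ => funext fun S => ?_
  by_cases h : o = o'
  · subst h
    simp only [Module.End.mul_apply, if_true, LinearMap.sub_apply, Module.End.one_apply,
      Pi.sub_apply, wedge_contr_self]
    rw [contr_apply]
    split_ifs with h1
    · simp
    · rw [wedge_apply, if_pos (Finset.mem_insert_self _ _), sgn_insert o h1, eps_self, one_mul,
        smul_smul, sgn_sq, one_smul, Finset.erase_insert h1, sub_zero]
  · rw [if_neg h, zero_sub]
    simp only [Module.End.mul_apply, LinearMap.neg_apply, Pi.neg_apply,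
      wedge_apply, contr_apply, Finset.mem_insert, Finset.mem_erase, ne_eq, h, not_false_eq_true,
      true_and, Ne.symm h, false_or]
    by_cases h1 : o ∈ S <;> by_cases h2 : o' ∈ S <;> simp only [h1, h2, if_true, if_false,
      smul_zero, neg_zero]
    rw [sgn_insert o' h1, sgn_erase o h2, Finset.erase_insert_of_ne h, smul_smul, smul_smul,
      eps_swap h, ← neg_smul]
    congr 1; ring

lemma contr_contr (o o' : O) :
    (contr o * contr o' : Module.End ℂ (Finset O → M)) = -(contr o' * contr o) := by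
  refine LinearMap.ext fun φ => funext fun S => ?_
  simp only [Module.End.mul_apply, LinearMap.neg_apply, Pi.neg_apply, contr_apply,
    Finset.mem_insert]
  by_cases h : o = o'
  · subst h; simp
  by_cases h1 : o ∈ S <;> by_cases h2 : o' ∈ S <;> simp only [h, Ne.symm h, h1, h2, if_true,
    if_false, smul_zero, neg_zero, or_true, or_false]
  rw [sgn_insert o' h1, sgn_insert o h2, Finset.insert_comm, smul_smul, smul_smul,
    eps_swap h, ← neg_smul]
  congr 1; ring

lemma wedge_compLeft {M' : Type} [AddCommGroup M'] [Module ℂ M'] (f : M →ₗ[ℂ] M') (o : O)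
    (φ : Finset O → M) : wedge o (f.compLeft _ φ) = f.compLeft _ (wedge o φ) := by
  funext S
  simp only [wedge_apply, LinearMap.compLeft_apply, Function.comp]
  split_ifs <;> simp

lemma contr_compLeft {M' : Type} [AddCommGroup M'] [Module ℂ M'] (f : M →ₗ[ℂ] M') (o : O)
    (φ : Finset O → M) : contr o (f.compLeft _ φ) = f.compLeft _ (contr o φ) := by
  funext S
  simp only [contr_apply, LinearMap.compLeft_apply, Function.comp]
  split_ifs <;> simp

end Car

end Pool.Agent.MP_8be872_ag.H4
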