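import Pool.Agent.MP_8be872_ag.H4.CellA

/-! The contracting homotopy on the Chevalley-Eilenberg complex of a coinduced algebra. -/

namespace Pool.Agent.MP_8be872_ag.H4

open Finset Polynomial H56

lemma ringA {E : Type} [Ring E] (e d m m' i c : E) (h1 : d * m = m' + m * d)
    (h2 : e * m' = m' * e) (h3 : e * m = m * e) (h4 : d * i = i * d) (h5 : i * e = c - e * i) :
    e * d * (m * i) + m * i * (e * d) = m' * (e * i) + m * c * d := by
  have a1 : e * d * (m * i) = e * (d * m) * i := by noncomm_ring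
  have a2 : e * (m' + m * d) * i = e * m' * i + e * m * (d * i) := by noncomm_ring
  have a3 : m * i * (e * d) = m * (i * e) * d := by noncomm_ring
  rw [a1, h1, a2, h2, h3, h4, a3, h5]
  noncomm_ring

lemma ringQ {E : Type} [Ring E] (e e' i' m i c c' : E) (h1 : e * m = m * e)
    (h2 : e' * m = m * e') (h3 : i' * m = m * i') (h4 : i * e = c - e * i)
    (h5 : i * e' = c' - e' * i) (h6 : i * i' = -(i' * i)) (h7 : e * c' = c' * e) :
    e * (e' * i') * (m * i) + m * i * (e * (e' * i')) =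
      m * c * (e' * i') - m * c' * (e * i') := by
  have a1 : e * (e' * i') * (m * i) = e * e' * (i' * m) * i := by noncomm_ring
  have a2 : e * e' * (m * i') * i = e * (e' * m) * i' * i := by noncomm_ring
  have a3 : e * (m * e') * i' * i = e * m * e' * i' * i := by noncomm_ring
  have a4 : m * i * (e * (e' * i')) = m * (i * e) * (e' * i') := by noncomm_ring
  have a5 : m * (c - e * i) * (e' * i') = m * c * (e' * i') - m * e * (i * e') * i' := by
    noncomm_ring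
  have a6 : m * e * (c' - e' * i) * i' = m * (e * c') * i' - m * e * e' * (i * i') := by
    noncomm_ring
  rw [a1, h3, a2, h2, a3, h1, a4, h4, a5, h5, a6, h6, h7]
  noncomm_ring

section Ops

variable {O A : Type} [Fintype O] [DecidableEq O] [CommRing A] [Algebra ℂ A]

/-- Multiplication by an element of the coefficient ring. -/
noncomputable def ml (O : Type) (a : A) : Module.End ℂ (Finset O → A) :=
  (LinearMap.mulLeft ℂ a).compLeft _

lemma ml_apply (a : A) (φ : Finset O → A) (S : Finset O) : ml O a φ S = a * φ S := rfl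

lemma wedge_ml (o : O) (a : A) : wedge o * ml O a = ml O a * wedge o :=
  LinearMap.ext fun φ => wedge_compLeft _ o φ

lemma contr_ml (o : O) (a : A) : contr o * ml O a = ml O a * contr o :=
  LinearMap.ext fun φ => contr_compLeft _ o φ

lemma der_ml (δ : Derivation ℂ A A) (a : A) :
    (δ.toLinearMap.compLeft (Finset O) * ml O a : Module.End ℂ (Finset O → A)) =
      ml O (δ a) + ml O a * δ.toLinearMap.compLeft (Finset O) := by
  refine LinearMap.ext fun φ => funext fun S => ?_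
  change δ (a * φ S) = δ a * φ S + a * δ (φ S)
  rw [Derivation.leibniz, smul_eq_mul, smul_eq_mul]; ring

/-- The homotopy. -/
noncomputable def htp (𝔞 : Finset O) (t : O → A) : Module.End ℂ (Finset O → A) :=
  -∑ r ∈ 𝔞, ml O (t r) * contr r

/-- The filtration. -/
def Fil (A : Type) [CommRing A] [Algebra ℂ A] (μ : O → ℕ) (k : ℕ) :
    Submodule ℂ (Finset O → A) where
  carrier := {φ | ∀ S, ∑ r ∈ S, μ r < k → φ S = 0}
  zero_mem' _ _ := rfl
  add_mem' ha hb S h := by rw [Pi.add_apply, ha S h, hb S h, add_zero]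
  smul_mem' c φ ha S h := by rw [Pi.smul_apply, ha S h, smul_zero]

/-- Operators that raise the filtration degree. -/
def Low (A : Type) [CommRing A] [Algebra ℂ A] (μ : O → ℕ) :
    Submodule ℂ (Module.End ℂ (Finset O → A)) where
  carrier := {T | ∀ k, ∀ φ ∈ Fil A μ k, T φ ∈ Fil A μ (k + 1)}
  zero_mem' _ _ _ := Submodule.zero_mem _
  add_mem' ha hb k φ h := Submodule.add_mem _ (ha k φ h) (hb k φ h)
  smul_mem' c _ ha k φ h := Submodule.smul_mem _ c (ha k φ h)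

lemma low_term {μ : O → ℕ} (a : A) {s s' : O} (h : μ s' < μ s) :
    ml O a * (wedge s * contr s') ∈ Low A μ := by
  intro k φ hφ S hS
  rw [Module.End.mul_apply, ml_apply, Module.End.mul_apply, wedge_apply]
  split_ifs with h1
  · rw [contr_apply]
    split_ifs with h2
    · simp
    · rw [hφ _ (by
        rw [Finset.sum_insert h2]
        rw [← Finset.add_sum_erase _ _ h1] at hS
        omega)]
      simp
  · simp

end Ops

section Main

variable {V A : Type} [Fintype V] [DecidableEq V] [CommRing A] [Algebra ℂ A]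
  {R : V × V → Prop} [DecidablePred R]

/-- The operator `D h + h D`. -/
noncomputable def lap (ρ : V × V → A →ₗ[ℂ] A) (𝔞 : Finset (Subtype R)) (t : Subtype R → A) :
    Module.End ℂ (Finset (Subtype R) → A) :=
  dCE R ρ * htp 𝔞 t + htp 𝔞 t * dCE R ρ

lemma dCE_eq (ρ : V × V → A →ₗ[ℂ] A) : (dCE R ρ : Module.End ℂ (Finset (Subtype R) → A)) =
    ∑ r : Subtype R, wedge r * (ρ r).compLeft (Finset (Subtype R)) -
    ∑ r : Subtype R, ∑ r' : Subtype R, ∑ r'' : Subtype R,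
      if r.1.2 = r'.1.1 ∧ r''.1 = (r.1.1, r'.1.2) then wedge r * (wedge r' * contr r'') else 0 :=
  rfl

variable {ρ : V × V → A →ₗ[ℂ] A} {𝔞 : Finset (Subtype R)} {t : Subtype R → A}
  {δ : Subtype R → Derivation ℂ A A} {μ : Subtype R → ℕ}

lemma one_root (hρ : ∀ r : Subtype R, ρ r = (δ r).toLinearMap)
    (hδ : ∀ r ∈ 𝔞, ∀ s ∈ 𝔞, δ r (t s) = if r = s then -1 else 0)
    (hμ : ∀ r ∈ 𝔞, ∀ s, s ∉ 𝔞 → μ r < μ s)
    (hμ' : ∀ s s' s'' : Subtype R, s.1.2 = s'.1.1 → s''.1 = (s.1.1, s'.1.2) →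
      (s ∈ 𝔞 → μ s'' < μ s') ∧ (s' ∈ 𝔞 → μ s'' < μ s)) {r : Subtype R} (hr : r ∈ 𝔞) :
    dCE R ρ * (ml _ (t r) * contr r) + ml _ (t r) * contr r * dCE R ρ -
      (ml _ (t r) * (ρ r).compLeft (Finset (Subtype R)) - wedge r * contr r) ∈ Low A μ := by
  have e1 : ∀ s : Subtype R, (wedge s * (ρ s).compLeft (Finset (Subtype R)) *
      (ml _ (t r) * contr r) + ml _ (t r) * contr r *
        (wedge s * (ρ s).compLeft (Finset (Subtype R))) : Module.End ℂ _) =
      ml _ (δ s (t r)) * (wedge s * contr r) +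
        if r = s then ml _ (t r) * (ρ s).compLeft (Finset (Subtype R)) else 0 := fun s => by
    rw [ringA _ _ _ (ml _ (δ s (t r))) _ _ (by rw [hρ]; exact der_ml _ _) (wedge_ml _ _)
      (wedge_ml _ _) (LinearMap.ext fun φ => (contr_compLeft _ _ φ).symm) (contr_wedge r s)]
    split_ifs <;> simp
  have e2 : ∑ s : Subtype R, ml _ (δ s (t r)) * (wedge s * contr r) + wedge r * contr r ∈
      Low A μ := by
    rw [← Finset.add_sum_erase _ _ (Finset.mem_univ r), hδ r hr r hr, if_pos rfl]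
    have : ml (Subtype R) (-1 : A) * (wedge r * contr r) = -(wedge r * contr r) :=
      LinearMap.ext fun φ => funext fun S => by simp [ml_apply]
    rw [this, add_assoc, add_comm _ (wedge r * contr r), neg_add_cancel_left]
    refine Submodule.sum_mem _ fun s hs => ?_
    by_cases h : s ∈ 𝔞
    · rw [hδ s h r hr, if_neg (Finset.ne_of_mem_erase hs)]
      have : ml (Subtype R) (0 : A) = 0 := LinearMap.ext fun φ => funext fun S => by
        simp [ml_apply]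
      rw [this, zero_mul]
      exact Submodule.zero_mem _
    · exact low_term _ (hμ r hr s h)
  have e3 : ∀ s s' s'' : Subtype R,
      ((if s.1.2 = s'.1.1 ∧ s''.1 = (s.1.1, s'.1.2) then wedge s * (wedge s' * contr s'') else 0) *
        (ml _ (t r) * contr r) + ml _ (t r) * contr r *
        (if s.1.2 = s'.1.1 ∧ s''.1 = (s.1.1, s'.1.2) then wedge s * (wedge s' * contr s'')
          else 0) : Module.End ℂ _) ∈ Low A μ := fun s s' s'' => by
    split_ifs with h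
    · rw [ringQ _ _ _ _ _ _ _ (wedge_ml _ _) (wedge_ml _ _) (contr_ml _ _) (contr_wedge r s)
        (contr_wedge r s') (contr_contr r s'') (by split_ifs <;> simp)]
      refine Submodule.sub_mem _ ?_ ?_
      · split_ifs with h1
        · rw [mul_one]; exact low_term _ ((hμ' s s' s'' h.1 h.2).1 (h1 ▸ hr))
        · simp
      · split_ifs with h1
        · rw [mul_one]; exact low_term _ ((hμ' s s' s'' h.1 h.2).2 (h1 ▸ hr))
        · simp
    · simp
  have e4 := Submodule.sum_mem _ fun s (_ : s ∈ Finset.univ) =>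
    Submodule.sum_mem _ fun s' (_ : s' ∈ Finset.univ) =>
      Submodule.sum_mem _ fun s'' (_ : s'' ∈ Finset.univ) => e3 s s' s''
  have e5 := Finset.sum_congr rfl fun s (_ : s ∈ Finset.univ) => e1 s
  simp only [Finset.sum_add_distrib, ← Finset.sum_mul, ← Finset.mul_sum] at e4
  rw [Finset.sum_add_distrib, Finset.sum_add_distrib, ← Finset.sum_mul, ← Finset.mul_sum,
    Finset.sum_ite_eq, if_pos (Finset.mem_univ r)] at e5
  have e6 := Submodule.sub_mem _ e2 e4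
  rw [dCE_eq, sub_mul, mul_sub, sub_add_sub_comm, e5]
  refine (congrArg (· ∈ Low A μ) ?_).mp e6
  abel

lemma lap_low (hρ : ∀ r : Subtype R, ρ r = (δ r).toLinearMap)
    (hδ : ∀ r ∈ 𝔞, ∀ s ∈ 𝔞, δ r (t s) = if r = s then -1 else 0)
    (hμ : ∀ r ∈ 𝔞, ∀ s, s ∉ 𝔞 → μ r < μ s)
    (hμ' : ∀ s s' s'' : Subtype R, s.1.2 = s'.1.1 → s''.1 = (s.1.1, s'.1.2) →
      (s ∈ 𝔞 → μ s'' < μ s') ∧ (s' ∈ 𝔞 → μ s'' < μ s)) {k : ℕ} {φ : Finset (Subtype R) → A}
    (hφ : φ ∈ Fil A μ k) {S : Finset (Subtype R)} (hS : ∑ r ∈ S, μ r < k + 1) :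
    lap ρ 𝔞 t φ S = (euler 𝔞 δ t + algebraMap ℂ _ ((𝔞.filter (· ∈ S)).card : ℂ)) (φ S) := by
  have h := Submodule.sum_mem _ fun r (hr : r ∈ 𝔞) => one_root hρ hδ hμ hμ' hr
  have h2 := h k φ hφ S hS
  rw [Finset.sum_sub_distrib, Finset.sum_add_distrib, ← Finset.mul_sum, ← Finset.sum_mul,
    LinearMap.sub_apply, Pi.sub_apply, sub_eq_zero] at h2
  have h3 : lap ρ 𝔞 t = -(dCE R ρ * (∑ r ∈ 𝔞, ml _ (t r) * contr r) +
      (∑ r ∈ 𝔞, ml _ (t r) * contr r) * dCE R ρ) := by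
    refine LinearMap.ext fun ψ => ?_
    simp only [lap, htp, LinearMap.add_apply, LinearMap.neg_apply, Module.End.mul_apply, map_neg,
      neg_add]
  rw [h3, LinearMap.neg_apply, Pi.neg_apply, h2, LinearMap.sum_apply, Finset.sum_apply,
    LinearMap.add_apply, euler_apply, Module.algebraMap_end_apply, Nat.cast_smul_eq_nsmul,
    ← Finset.sum_const, Finset.sum_filter, ← sub_eq_neg_add, ← Finset.sum_sub_distrib,
    ← Finset.sum_neg_distrib]
  refine Finset.sum_congr rfl fun r _ => ?_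
  rw [LinearMap.sub_apply, Pi.sub_apply, Module.End.mul_apply, Module.End.mul_apply,
    wedge_contr_self, ml_apply, hρ, neg_sub]
  rfl

theorem lap_good (hρ : ∀ r : Subtype R, ρ r = (δ r).toLinearMap)
    (hδ : ∀ r ∈ 𝔞, ∀ s ∈ 𝔞, δ r (t s) = if r = s then -1 else 0)
    (hc : ∀ r ∈ 𝔞, ∀ s ∈ 𝔞, ∀ a, δ r (δ s a) = δ s (δ r a)) (hn : ∀ a, Nil 𝔞 δ a)
    (hμ : ∀ r ∈ 𝔞, ∀ s, s ∉ 𝔞 → μ r < μ s)
    (hμ' : ∀ s s' s'' : Subtype R, s.1.2 = s'.1.1 → s''.1 = (s.1.1, s'.1.2) →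
      (s ∈ 𝔞 → μ s'' < μ s') ∧ (s' ∈ 𝔞 → μ s'' < μ s))
    (Γ : Submodule ℂ (Finset (Subtype R) → A)) (hΓ : ∀ φ ∈ Γ, lap ρ 𝔞 t φ ∈ Γ)
    (hI : ∀ φ ∈ Γ, ∀ S, φ S ∈ Ideal.span (t '' (𝔞 : Set (Subtype R))))
    {φ : Finset (Subtype R) → A} (hφ : φ ∈ Γ) :
    ∃ q : ℂ[X], q.eval 0 ≠ 0 ∧ aeval (lap ρ 𝔞 t) q φ = 0 := by
  have key : ∀ k, ∃ q : ℂ[X], q.eval 0 ≠ 0 ∧ aeval (lap ρ 𝔞 t) q φ ∈ Fil A μ k := fun k => by
    induction k with
    | zero => exact ⟨1, by simp, fun S h => absurd h (Nat.not_lt_zero _)⟩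
    | succ k ih =>
      obtain ⟨q, hq, hk⟩ := ih
      have hψ := (aeval_intertwine _ (lap ρ 𝔞 t) LinearMap.id Γ hΓ (fun _ _ => rfl) q hφ).1
      choose p hp hp' using fun S => span_good hδ hc hn (hI _ hψ S)
      refine ⟨(∏ S, (p S).comp (X - C ((𝔞.filter (· ∈ S)).card : ℂ))) * q, ?_, fun S hS => ?_⟩
      · rw [eval_mul, eval_prod]
        refine mul_ne_zero (Finset.prod_ne_zero_iff.2 fun S _ => ?_) hq
        simpa [eval_comp] using hp S (𝔞.filter (· ∈ S)).card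
      · rw [map_mul, Module.End.mul_apply]
        have := (aeval_intertwine (lap ρ 𝔞 t) _ (LinearMap.proj S) (Fil A μ k)
          (fun m hm S' hS' => by
            rw [lap_low hρ hδ hμ hμ' hm (Nat.lt_succ_of_lt hS'), hm S' hS', map_zero])
          (fun m hm => lap_low hρ hδ hμ hμ' hm hS)
          (∏ S, (p S).comp (X - C ((𝔞.filter (· ∈ S)).card : ℂ))) hk).2
        refine this.trans (aeval_prod_eq_zero _ _ _ (Finset.mem_univ S) ?_)
        rw [aeval_shift]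
        exact hp' S
  obtain ⟨q, hq, hk⟩ := key (∑ r, μ r + 1)
  exact ⟨q, hq, funext fun S => hk S (Nat.lt_succ_of_le
    (Finset.sum_le_sum_of_subset (Finset.subset_univ S)))⟩

end Main

section Transfer

variable {V P A : Type} [Fintype V] [DecidableEq V] [CommRing P] [Algebra ℂ P] [CommRing A]
  [Algebra ℂ A] {R : V × V → Prop} [DecidablePred R]

lemma dCE_map {ρ : V × V → P →ₗ[ℂ] P} {ρ' : V × V → A →ₗ[ℂ] A} (π : P →ₗ[ℂ] A)
    (h : ∀ (r : Subtype R) a, π (ρ r a) = ρ' r (π a)) (φ : Finset (Subtype R) → P) :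
    π.compLeft _ (dCE R ρ φ) = dCE R ρ' (π.compLeft _ φ) := by
  simp only [dCE_eq, LinearMap.sub_apply, LinearMap.sum_apply, map_sub, map_sum,
    Module.End.mul_apply]
  refine congrArg₂ _ (Finset.sum_congr rfl fun r _ => ?_) (Finset.sum_congr rfl fun r _ =>
    Finset.sum_congr rfl fun r' _ => Finset.sum_congr rfl fun r'' _ => ?_)
  · rw [← wedge_compLeft]
    exact congrArg _ (funext fun S => h r _)
  · split_ifs
    · simp only [Module.End.mul_apply, contr_compLeft, wedge_compLeft]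
    · simp

lemma htp_map {O : Type} [Fintype O] [DecidableEq O] (π : P →ₐ[ℂ] A) (𝔞 : Finset O) (t : O → P)
    (φ : Finset O → P) :
    π.toLinearMap.compLeft _ (htp 𝔞 t φ) =
      htp 𝔞 (fun r => π (t r)) (π.toLinearMap.compLeft _ φ) := by
  simp only [htp, LinearMap.neg_apply, LinearMap.sum_apply, map_neg, map_sum,
    Module.End.mul_apply, contr_compLeft]
  refine congrArg _ (Finset.sum_congr rfl fun r _ => funext fun S => ?_)
  exact map_mul π _ _

lemma htp_mem {x : V → H38.G} {W : H38.G → Submodule ℂ P} {𝔞 : Finset (Subtype R)}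
    {t : Subtype R → P}
    (ht : ∀ r ∈ 𝔞, ∀ γ, ∀ m ∈ W γ, t r * m ∈ W (γ + (x r.1.2 - x r.1.1))) {γ : H38.G} {p : Bool}
    {φ : Finset (Subtype R) → P} (hφ : φ ∈ cochains R x W ⊤ γ p) :
    htp 𝔞 t φ ∈ cochains R x W ⊤ γ (!p) := by
  rw [htp, LinearMap.neg_apply, LinearMap.sum_apply]
  refine Submodule.neg_mem _ (Submodule.sum_mem _ fun r hr => ⟨⟨fun _ _ => trivial, ?_⟩, ?_⟩)
  · intro S _
    rw [Module.End.mul_apply, ml_apply, contr_apply]
    split_ifs with h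
    · simp
    · rw [mul_smul_comm]
      refine Submodule.smul_mem _ _ ?_
      have := ht r hr _ _ (hφ.1.2 (insert r S) trivial)
      rwa [Finset.sum_insert h, ← sub_sub, sub_right_comm, sub_add_cancel] at this
  · intro S hS
    rw [Module.End.mul_apply, ml_apply, contr_apply]
    split_ifs with h
    · simp
    · have : φ (insert r S) = 0 := hφ.2 (insert r S) (by
        simp only [Set.mem_ofPred_eq, Finset.card_insert_of_notMem h, Nat.odd_add_one] at hS ⊢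
        cases p <;> simpa using hS)
      simp [this]

theorem acyc_of {x : V → H38.G} {W : H38.G → Submodule ℂ P} {ρ : V × V → P →ₗ[ℂ] P}
    (hD : dCE R ρ ∘ₗ dCE R ρ = 0)
    (hD' : ∀ γ p, ∀ φ ∈ cochains R x W ⊤ γ p, dCE R ρ φ ∈ cochains R x W ⊤ γ (!p))
    (π : P →ₐ[ℂ] A) (B : Submodule ℂ P) (hB : ∀ a, a ∈ B ↔ π a = 0)
    (δ : Subtype R → Derivation ℂ A A) (hπ : ∀ (r : Subtype R) a, π (ρ r a) = δ r (π a))
    (𝔞 : Finset (Subtype R)) (t : Subtype R → P) (μ : Subtype R → ℕ)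
    (ht : ∀ r ∈ 𝔞, ∀ γ, ∀ m ∈ W γ, t r * m ∈ W (γ + (x r.1.2 - x r.1.1)))
    (hδ : ∀ r ∈ 𝔞, ∀ s ∈ 𝔞, δ r (π (t s)) = if r = s then -1 else 0)
    (hc : ∀ r ∈ 𝔞, ∀ s ∈ 𝔞, ∀ a, δ r (δ s a) = δ s (δ r a)) (hn : ∀ a, Nil 𝔞 δ a)
    (hμ : ∀ r ∈ 𝔞, ∀ s, s ∉ 𝔞 → μ r < μ s)
    (hμ' : ∀ s s' s'' : Subtype R, s.1.2 = s'.1.1 → s''.1 = (s.1.1, s'.1.2) →
      (s ∈ 𝔞 → μ s'' < μ s') ∧ (s' ∈ 𝔞 → μ s'' < μ s)) (γ : H38.G)
    (hI : ∀ S : Finset (Subtype R), ∀ m ∈ W (γ - ∑ r ∈ S, (x r.1.2 - x r.1.1)),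
      π m ∈ Ideal.span ((fun r => π (t r)) '' (𝔞 : Set (Subtype R)))) :
    Acyc R x W ρ ⊤ B γ := by
  intro p φ hφ
  let ρ' : V × V → A →ₗ[ℂ] A := fun r => if h : R r then (δ ⟨r, h⟩).toLinearMap else 0
  have hρ' : ∀ r : Subtype R, ρ' r = (δ r).toLinearMap := fun r => dif_pos r.2
  let T : (Finset (Subtype R) → P) →ₗ[ℂ] (Finset (Subtype R) → A) := π.toLinearMap.compLeft _
  have hT : ∀ ψ, ψ ∈ extOf (Subtype R) B ↔ T ψ = 0 := fun ψ =>
    ⟨fun h => funext fun S => (hB _).1 (h S trivial), fun h S _ => (hB _).2 (congrFun h S)⟩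
  have hTD : ∀ ψ, T (dCE R ρ ψ) = dCE R ρ' (T ψ) :=
    dCE_map π.toLinearMap fun r a => by rw [hρ']; exact hπ r a
  have hTh : ∀ ψ, T (htp 𝔞 t ψ) = htp 𝔞 (fun r => π (t r)) (T ψ) := htp_map π 𝔞 t
  have hTL : ∀ ψ, T (lap ρ 𝔞 t ψ) = lap ρ' 𝔞 (fun r => π (t r)) (T ψ) := fun ψ => by
    simp only [lap, LinearMap.add_apply, Module.End.mul_apply, map_add, hTD, hTh]
  have hL : ∀ ψ ∈ cochains R x W ⊤ γ p, lap ρ 𝔞 t ψ ∈ cochains R x W ⊤ γ p := fun ψ hψ => by
    have h1 := hD' _ _ _ (htp_mem ht hψ)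
    have h2 := htp_mem ht (hD' _ _ _ hψ)
    rw [Bool.not_not] at h1 h2
    exact Submodule.add_mem _ h1 h2
  have hLc : ∀ ψ ∈ cocycles R x W ρ ⊤ B γ p, lap ρ 𝔞 t ψ ∈ cocycles R x W ρ ⊤ B γ p ∧
      lap ρ 𝔞 t ψ ∈ cobounds R x W ρ ⊤ B γ p := fun ψ hψ => by
    have h0 : T (dCE R ρ ψ) = 0 := (hT _).1 hψ.2
    refine ⟨⟨hL ψ hψ.1, (hT _).2 ?_⟩, Submodule.add_mem_sup ⟨_, htp_mem ht hψ.1, rfl⟩
      ((hT _).2 ?_)⟩
    · have h1 : dCE R ρ (dCE R ρ (htp 𝔞 t ψ)) = 0 := LinearMap.congr_fun hD _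
      simp only [lap, LinearMap.add_apply, Module.End.mul_apply, map_add, h1]
      rw [hTD, hTh, h0]; simp
    · rw [Module.End.mul_apply, hTh, h0, map_zero]
  obtain ⟨q, hq, hq'⟩ := lap_good hρ' hδ hc hn hμ hμ' ((cochains R x W ⊤ γ p).map T)
    (by rintro _ ⟨ψ, hψ, rfl⟩; exact ⟨_, hL ψ hψ, hTL ψ⟩)
    (by rintro _ ⟨ψ, hψ, rfl⟩ S; exact hI S _ (hψ.1.2 S trivial)) ⟨φ, hφ.1, rfl⟩
  have h1 := (aeval_intertwine (lap ρ 𝔞 t) _ T ⊤ (fun _ _ => trivial) (fun m _ => hTL m) q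
    (m := φ) trivial).2
  rw [hq', ← hT] at h1
  have h2 := (aeval_intertwine (lap ρ 𝔞 t) (lap ρ 𝔞 t) LinearMap.id _
    (fun m hm => (hLc m hm).1) (fun _ _ => rfl) q.divX hφ).1
  have h3 : aeval (lap ρ 𝔞 t) q φ =
      lap ρ 𝔞 t (aeval (lap ρ 𝔞 t) q.divX φ) + q.coeff 0 • φ := by
    conv_lhs => rw [← X_mul_divX_add q]
    rw [map_add, map_mul, aeval_X, aeval_C, LinearMap.add_apply, Module.End.mul_apply,
      Module.algebraMap_end_apply]
  have h4 : q.coeff 0 • φ ∈ cobounds R x W ρ ⊤ B γ p := by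
    rw [← sub_eq_of_eq_add' h3]
    exact Submodule.sub_mem _ (Submodule.mem_sup_right h1) (hLc _ h2).2
  exact (Submodule.smul_mem_iff _ (by rwa [coeff_zero_eq_eval_zero])).1 h4

end Transfer

end Pool.Agent.MP_8be872_ag.H4
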