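import Pool.Agent.MP_8be872_ag.H4.CellB
import Pool.Agent.MP_8be872_ag.H64.Cut

/-! The extremal minor. -/

namespace Pool.Agent.MP_8be872_ag.H4

open Finset H38 H56 H64
open MvPolynomial hiding funext

section Det

variable {κ P : Type} [Fintype κ] [DecidableEq κ] [CommRing P]

lemma der_prod [Algebra ℂ P] (δ : Derivation ℂ P P) (s : Finset κ) (f : κ → P) :
    δ (∏ i ∈ s, f i) = ∑ i ∈ s, ∏ j ∈ s, Function.update f i (δ (f i)) j := by
  induction s using Finset.induction_on with
  | empty => simp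
  | insert a s ha ih =>
    rw [Finset.prod_insert ha, Derivation.leibniz, ih, Finset.sum_insert ha, Finset.prod_insert ha,
      Function.update_self, smul_eq_mul, smul_eq_mul, add_comm, mul_comm, Finset.mul_sum]
    refine congrArg₂ _ (congrArg _ (Finset.prod_congr rfl fun j hj => ?_))
      (Finset.sum_congr rfl fun i hi => ?_)
    · rw [Function.update_of_ne (ne_of_mem_of_not_mem hj ha)]
    · rw [Finset.prod_insert ha, Function.update_of_ne (ne_of_mem_of_not_mem hi ha).symm]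

lemma der_det' [Algebra ℂ P] (δ : Derivation ℂ P P) (M : Matrix κ κ P) :
    δ M.det = ∑ i, (M.updateRow i fun j => δ (M i j)).det := by
  simp only [← Matrix.det_transpose (Matrix.updateRow _ _ _)]
  rw [← Matrix.det_transpose]
  simp only [Matrix.det_apply, map_sum, Units.smul_def, map_zsmul, der_prod, Finset.smul_sum]
  rw [Finset.sum_comm]
  refine Finset.sum_congr rfl fun i _ => Finset.sum_congr rfl fun σ _ =>
    congrArg _ (Finset.prod_congr rfl fun j _ => ?_)
  by_cases h : j = i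
  · subst h; simp
  · simp [h]

/-- The minor of the columns `c` with rows `ρ`. -/
def mn {V : Type} (c : κ → V → P) (ρ : κ → V) : P := (Matrix.of fun i j => c j (ρ i)).det

variable {V : Type}

lemma mn_update (c : κ → V → P) (ρ : κ → V) (i : κ) (a : V) :
    mn c (Function.update ρ i a) =
      ((Matrix.of fun i j => c j (ρ i)).updateRow i fun j => c j a).det := by
  refine congrArg Matrix.det (Matrix.ext fun k j => ?_)
  by_cases h : k = i
  · subst h; simp
  · simp [h]

lemma mn_eq_zero (c : κ → V → P) {ρ : κ → V} {i j : κ} (h : i ≠ j) (h' : ρ i = ρ j) :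
    mn c ρ = 0 :=
  Matrix.det_zero_of_row_eq h (funext fun k => by simp [h'])

lemma mn_reindex {κ' : Type} [Fintype κ'] [DecidableEq κ'] (e : κ' ≃ κ) (c : κ → V → P)
    (ρ : κ → V) : mn (fun j => c (e j)) (fun i => ρ (e i)) = mn c ρ :=
  Matrix.det_submatrix_equiv_self e (Matrix.of fun i j => c j (ρ i))

lemma map_mn {P' : Type} [CommRing P'] (f : P →+* P') (c : κ → V → P) (ρ : κ → V) :
    f (mn c ρ) = mn (fun j a => f (c j a)) ρ := f.map_det _

/-- Cramer's rule. -/
lemma cramer_col (c : κ → V → P) (ρ : κ → V) (T : P) (hT : mn c ρ * T = 1) (c₀ : V → P) (a : V)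
    (h : mn (Sum.elim c fun _ : Unit => c₀) (Sum.elim ρ fun _ => a) = 0) :
    c₀ a = ∑ i, T * mn c (Function.update ρ i a) * c₀ (ρ i) := by
  set M : Matrix κ κ P := Matrix.of fun i j => c j (ρ i) with hM
  have hu : IsUnit M.det := IsUnit.of_mul_eq_one T hT
  letI := M.invertibleOfIsUnitDet hu
  have e : (Matrix.of fun i j => Sum.elim c (fun _ : Unit => c₀) j
      (Sum.elim ρ (fun _ : Unit => a) i)) =
      Matrix.fromBlocks M (Matrix.of fun i _ => c₀ (ρ i)) (Matrix.of fun _ j => c j a)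
        (Matrix.of fun _ _ => c₀ a) := by
    ext (i | i) (j | j) <;> rfl
  rw [mn, e, Matrix.det_fromBlocks₁₁, hu.mul_right_eq_zero, Matrix.det_unique, Matrix.sub_apply,
    sub_eq_zero, Matrix.invOf_eq_nonsing_inv, Matrix.mul_apply] at h
  refine h.trans (Finset.sum_congr rfl fun i _ => ?_)
  have h1 := congrFun (Matrix.det_smul_inv_vecMul_eq_cramer_transpose M (fun j => c j a) hu) i
  rw [Matrix.cramer_transpose_apply, ← mn_update] at h1
  rw [← h1, Pi.smul_apply, smul_eq_mul, ← mul_assoc, mul_comm T, show M.det * T = 1 from hT,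
    one_mul]
  rfl

lemma mem_of_vecMul (c : κ → V → P) (ρ : κ → V) (T : P) (hT : mn c ρ * T = 1) (I : Ideal P)
    (u : κ → P) (h : ∀ j, ∑ i, u i * c j (ρ i) ∈ I) (i : κ) : u i ∈ I := by
  set M : Matrix κ κ P := Matrix.of fun i j => c j (ρ i) with hM
  have hu : IsUnit M.det := IsUnit.of_mul_eq_one T hT
  have e : u = Matrix.vecMul (Matrix.vecMul u M) M⁻¹ := by
    rw [Matrix.vecMul_vecMul, Matrix.mul_nonsing_inv _ hu, Matrix.vecMul_one]
  rw [e]
  exact I.sum_mem fun j _ => I.mul_mem_right _ (h j)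

lemma count_eq [IsDomain P] {ι : Type} [DecidableEq ι] {vert : V → ι} {c : κ → V → P} {ν : κ → ι}
    (hν : ∀ j a, vert a ≠ ν j → c j a = 0) {ρ : κ → V} (h : mn c ρ ≠ 0) (v : ι) :
    ∑ i, (if vert (ρ i) = v then 1 else 0 : ℕ) = ∑ j, if ν j = v then 1 else 0 := by
  rw [mn, Matrix.det_apply] at h
  obtain ⟨σ, -, hσ⟩ := Finset.exists_ne_zero_of_sum_ne_zero h
  have h1 : ∀ j, vert (ρ (σ j)) = ν j := fun j => by
    by_contra hc
    exact hσ (by rw [Finset.prod_eq_zero (Finset.mem_univ j) (by simpa using hν j _ hc), smul_zero])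
  rw [← Equiv.sum_comp σ]
  simp only [h1]

end Det

section Minor

variable {A V W ι : Type} [Fintype A] [Fintype V] [Fintype W] [DecidableEq A] [DecidableEq V]
  [DecidableEq W] [DecidableEq ι] {vert : V → ι}

lemma col_supp {c : V → Pol0 A V W} (hc : IsCol vert c) : ∃ ν, ∀ a, vert a ≠ ν → c a = 0 := by
  cases hc with
  | base ε b j => exact ⟨j, fun a h => if_neg h⟩
  | step ε j c _ => exact ⟨j, fun a h => if_neg h⟩

variable {κ : Type} [Fintype κ] [DecidableEq κ]

lemma act_mn {c : κ → V → Pol0 A V W} (hc : ∀ j, IsCol vert (c j)) {a b : V}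
    (h : vert a = vert b) (ρ : κ → V) :
    act0 (a, b) (mn c ρ) = -∑ i, if ρ i = a then mn c (Function.update ρ i b) else 0 := by
  rw [mn, der_det', ← Finset.sum_neg_distrib]
  refine Finset.sum_congr rfl fun i _ => ?_
  simp only [Matrix.of_apply, act_col (hc _) h]
  split_ifs with h1
  · rw [mn_update, ← neg_one_mul, ← Matrix.det_updateRow_smul]
    simp [Pi.neg_def]
  · rw [neg_zero]
    exact Matrix.det_eq_zero_of_row_eq_zero i fun j => by simp

lemma wt_mn (x : V ⊕ W → G) (t : A → G) (c : κ → V → Pol0 A V W) (ω : κ → G)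
    (h : ∀ j a, c j a ∈ polW0 x t (ω j - x (.inl a))) (ρ : κ → V) :
    mn c ρ ∈ polW0 x t (∑ j, ω j - ∑ i, x (.inl (ρ i))) := by
  rw [mn, Matrix.det_apply]
  refine Submodule.sum_mem _ fun σ _ => Submodule.smul_of_tower_mem _ _ ?_
  have := IsWeightedHomogeneous.prod univ (fun i => c i (ρ (σ i)))
    (fun i => ω i - x (.inl (ρ (σ i)))) fun i _ => h i (ρ (σ i))
  rwa [sum_sub_distrib, Equiv.sum_comp σ fun a => x (.inl (ρ a))] at this

lemma exists_extremal (vert : V → ι) (key : V → ℕ) (J : Ideal (Pol0 A V W)) (hJ : J ≠ ⊤) :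
    ∃ (n : ℕ) (c : Fin n → V → Pol0 A V W) (ρ : Fin n → V), (∀ j, IsCol vert (c j)) ∧
      mn c ρ ∉ J ∧ (∀ ρ' : Fin n → V, ∑ i, key (ρ' i) < ∑ i, key (ρ i) → mn c ρ' ∈ J) ∧
      ∀ c₀ a, IsCol vert c₀ → mn (Sum.elim c fun _ : Unit => c₀) (Sum.elim ρ fun _ => a) ∈ J := by
  classical
  let Q : ℕ → Prop := fun n => ∃ (c : Fin n → V → Pol0 A V W) (ρ : Fin n → V),
    (∀ j, IsCol vert (c j)) ∧ mn c ρ ∉ J
  have h0 : Q 0 := ⟨Fin.elim0, Fin.elim0, fun j => j.elim0, by
    rw [mn, Matrix.det_isEmpty]; exact (Ideal.ne_top_iff_one J).1 hJ⟩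
  have hb : ∀ n, Q n → n ≤ Fintype.card V := by
    rintro n ⟨c, ρ, -, h⟩
    have : Function.Injective ρ := fun i j e => by
      by_contra hne
      exact h (by rw [mn_eq_zero c hne e]; exact J.zero_mem)
    simpa using Fintype.card_le_of_injective ρ this
  obtain ⟨c, ρ₀, hc, h₀⟩ := Nat.findGreatest_spec (P := Q) (Nat.zero_le (Fintype.card V)) h0
  obtain ⟨ρ, hρ, hmin⟩ := exists_min_image (Finset.univ.filter fun ρ => mn c ρ ∉ J)
    (fun ρ => ∑ i, key (ρ i)) ⟨ρ₀, by simpa using h₀⟩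
  refine ⟨_, c, ρ, hc, (Finset.mem_filter.1 hρ).2, fun ρ' h => ?_, fun c₀ a h => ?_⟩
  · by_contra hn
    exact absurd (hmin ρ' (by simpa using hn)) (not_le.2 h)
  · by_contra hn
    have hQ : Q (Nat.findGreatest Q (Fintype.card V) + 1) := by
      let e : Fin (Nat.findGreatest Q (Fintype.card V) + 1) ≃
          Fin (Nat.findGreatest Q (Fintype.card V)) ⊕ Unit :=
        (Fintype.equivFinOfCardEq (by simp)).symm
      refine ⟨fun j => Sum.elim c (fun _ : Unit => c₀) (e j),
        fun i => Sum.elim ρ (fun _ => a) (e i), fun j => ?_, by rwa [mn_reindex e]⟩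
      beta_reduce
      rcases e j with j | j
      exacts [hc j, h]
    exact absurd (Nat.le_findGreatest (hb _ hQ) hQ) (by omega)

end Minor

end Pool.Agent.MP_8be872_ag.H4
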